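import Pool.Agent.H65.AD.TargetsF

/-!
# The first moment in terms of the quadratic characters (row ZEX of the board adm_modules)
-/

set_option autoImplicit false

open MeasureTheory Set Filter
open scoped Real

namespace Pool.Agent.H19.ADM

open Pool.Agent.H31.CN Pool.Agent.H95.AD Pool.Agent.H50.CN Pool.Agent.H65.AD

/-- A product over the prime factors as a sum over the divisors. -/
lemma prod_one_add (f : ℕ → ℝ) {m : ℕ} (hm : Squarefree m) :
    ∏ p ∈ m.primeFactors, (1 + f p) = ∑ r ∈ m.divisors, ∏ p ∈ r.primeFactors, f p := by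
  have h1 := ArithmeticFunction.IsMultiplicative.prodPrimeFactors_one_add_of_squarefree
    (ArithmeticFunction.IsMultiplicative.prodPrimeFactors f) hm
  have h2 : ∀ p ∈ m.primeFactors, ArithmeticFunction.prodPrimeFactors f p = f p := by
    intro p hp
    have hpp := Nat.prime_of_mem_primeFactors hp
    rw [ArithmeticFunction.prodPrimeFactors_apply hpp.ne_zero, hpp.primeFactors,
      Finset.prod_singleton]
  rw [Finset.prod_congr rfl fun p hp => by rw [← h2 p hp], h1]
  refine Finset.sum_congr rfl fun r hr => ?_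
  exact ArithmeticFunction.prodPrimeFactors_apply (Nat.pos_of_mem_divisors hr).ne'

lemma sum_div_prod {N : ℕ} (hN : N ≠ 0) (hsq : Squarefree N) (a b : ℕ → ℝ)
    (hb : ∀ p ∈ N.primeFactors, b p ≠ 0) :
    ∑ n ∈ N.divisors, ∏ p ∈ N.primeFactors, (if p ∣ n then a p else b p) =
      ∏ p ∈ N.primeFactors, (a p + b p) := by
  have h1 : ∀ n ∈ N.divisors, ∏ p ∈ N.primeFactors, (if p ∣ n then a p else b p) =
      (∏ p ∈ N.primeFactors, b p) * ∏ p ∈ n.primeFactors, (a p / b p) := by
    intro n hn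
    have hd := Nat.dvd_of_mem_divisors hn
    have h2 : n.primeFactors = N.primeFactors.filter (fun p => p ∣ n) := by
      ext p
      rw [Finset.mem_filter, Nat.mem_primeFactors, Nat.mem_primeFactors]
      constructor
      · rintro ⟨h3, h4, -⟩
        exact ⟨⟨h3, h4.trans hd, hN⟩, h4⟩
      · rintro ⟨⟨h3, -, -⟩, h4⟩
        exact ⟨h3, h4, (Nat.pos_of_mem_divisors hn).ne'⟩
    rw [h2, Finset.prod_filter, ← Finset.prod_mul_distrib]
    refine Finset.prod_congr rfl fun p hp => ?_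
    split_ifs
    · have := hb p hp
      field_simp
    · rw [mul_one]
  rw [Finset.sum_congr rfl h1, ← Finset.mul_sum, ← prod_one_add (fun p => a p / b p) hsq,
    ← Finset.prod_mul_distrib]
  refine Finset.prod_congr rfl fun p hp => ?_
  have := hb p hp
  field_simp
  ring

lemma cm_zero' (P : Polynomial ℝ) (M : ℝ) (N m : ℕ) (hm : ¬ (Squarefree m ∧ Nat.Coprime m N)) :
    cm P M N m = 0 := by
  unfold cm
  by_cases h : (m : ℝ) ≤ M ∧ Nat.Coprime m N
  · rw [if_pos h]
    have hns : ¬ Squarefree m := fun h' => hm ⟨h', h.2⟩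
    unfold mr
    rw [ArithmeticFunction.moebius_eq_zero_of_not_squarefree hns]
    simp
  · rw [if_neg h]

/-- Exchange of the sums over `r` and `m`. -/
lemma exch (P : Polynomial ℝ) (M : ℝ) (N D : ℕ) (f : ℕ → ℝ) :
    ∑ r ∈ (Finset.Icc 1 ⌊M⌋₊).filter (fun r => Squarefree r ∧ Nat.Coprime r N),
      xD r D * ∑ m ∈ (Finset.Icc 1 ⌊M⌋₊).filter (fun m => r ∣ m), cm P M N m / m * f m =
    ∑ m ∈ Finset.Icc 1 ⌊M⌋₊, cm P M N m / m * f m *
      ∏ p ∈ m.primeFactors, (1 + (chi p D : ℝ)) := by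
  have h1 : ∀ r ∈ (Finset.Icc 1 ⌊M⌋₊).filter (fun r => Squarefree r ∧ Nat.Coprime r N),
      xD r D * ∑ m ∈ (Finset.Icc 1 ⌊M⌋₊).filter (fun m => r ∣ m), cm P M N m / m * f m =
      ∑ m ∈ Finset.Icc 1 ⌊M⌋₊, if r ∣ m then cm P M N m / m * f m * xD r D else 0 := by
    intro r _
    rw [Finset.mul_sum, Finset.sum_filter]
    refine Finset.sum_congr rfl fun m _ => ?_
    split_ifs
    · ring
    · rfl
  rw [Finset.sum_congr rfl h1, Finset.sum_comm]
  refine Finset.sum_congr rfl fun m hm => ?_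
  rw [Finset.mem_Icc] at hm
  by_cases hm2 : Squarefree m ∧ Nat.Coprime m N
  · rw [prod_one_add (fun p => (chi p D : ℝ)) hm2.1, Finset.mul_sum, ← Finset.sum_filter]
    refine Finset.sum_congr ?_ fun r _ => rfl
    ext r
    rw [Finset.mem_filter, Finset.mem_filter, Finset.mem_Icc, Nat.mem_divisors]
    constructor
    · rintro ⟨-, h3⟩
      exact ⟨h3, by omega⟩
    · rintro ⟨h3, -⟩
      refine ⟨⟨⟨Nat.pos_of_dvd_of_pos h3 (by omega), ?_⟩, ?_, ?_⟩, h3⟩
      · exact (Nat.le_of_dvd (by omega) h3).trans hm.2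
      · exact hm2.1.squarefree_of_dvd h3
      · exact Nat.Coprime.coprime_dvd_left h3 hm2.2
  · rw [cm_zero' P M N m hm2]
    simp

theorem pf_ZEX (hPZ2 : T_PZ2) (hCHV : T_CHV) : T_ZEX := by
  intro P N θ η hN h2N hsq hθ hθ4 hη
  obtain ⟨X₀, hX₀⟩ := hPZ2 P N θ hN h2N hsq hθ hθ4 η hη
  refine ⟨(N.divisors.card : ℝ) * (2 ^ N.primeFactors.card * Real.log N) + 1, max X₀ 1, ?_,
    fun X hX D hD => ?_⟩
  · have : 0 ≤ Real.log N := Real.log_nonneg (by exact_mod_cast hN)
    positivity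
  have hX1 : 1 ≤ X := (le_max_right _ _).trans hX
  unfold faE fam at hD
  rw [Finset.mem_filter, Finset.mem_filter, Finset.mem_Icc] at hD
  obtain ⟨⟨⟨hD1, hD2⟩, hD3, hD4, hD5⟩, hD6⟩ := hD
  have hDX : (D : ℝ) ≤ X := (Nat.cast_le.2 hD2).trans (Nat.floor_le (by linarith))
  have hpz := hX₀ X ((le_max_left _ _).trans hX) D hD6 hDX hD4 hD5
  set M : ℝ := X ^ θ with hM
  set g : ℕ → ℝ := fun m => ∏ p ∈ m.primeFactors, (1 + (chi p D : ℝ)) with hg
  set w : ℕ → ℝ := fun n => ∏ p ∈ N.primeFactors, (if p ∣ n then -((1 + (chi p D : ℝ)) / p) else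
            1 + (chi p D : ℝ) / p) with hw
  set S0 : ℝ := ∑ r ∈ (Finset.Icc 1 ⌊M⌋₊).filter (fun r => Squarefree r ∧ Nat.Coprime r N),
            xD r D * A0 P M N r with hS0
  set S1 : ℝ := ∑ r ∈ (Finset.Icc 1 ⌊M⌋₊).filter (fun r => Squarefree r ∧ Nat.Coprime r N),
            xD r D * A1 P M N r with hS1
  have hS0' : S0 = ∑ m ∈ Finset.Icc 1 ⌊M⌋₊, cm P M N m / m * g m := by
    have := exch P M N D (fun _ => 1)
    simp only [mul_one] at this
    rw [hS0, hg]
    exact this
  have hS1' : S1 = ∑ m ∈ Finset.Icc 1 ⌊M⌋₊, cm P M N m / m * Real.log m * g m :=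
    exch P M N D (fun m => Real.log m)
  -- values of the characters
  have hchi : ∀ p ∈ N.primeFactors, |(chi p D : ℝ)| ≤ 1 := by
    intro p hp
    rcases (hCHV D p hD4 (Nat.prime_of_mem_primeFactors hp)).1 with h | h | h <;>
      rw [h] <;> norm_num
  have hpp : ∀ p ∈ N.primeFactors, (2 : ℝ) ≤ p := fun p hp => by
    exact_mod_cast (Nat.prime_of_mem_primeFactors hp).two_le
  have hv : ∑ n ∈ N.divisors, w n = ∏ p ∈ N.primeFactors, (1 - 1 / (p : ℝ)) := by
    rw [hw]
    simp only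
    rw [sum_div_prod (by omega) hsq (fun p => -((1 + (chi p D : ℝ)) / p))
      (fun p => 1 + (chi p D : ℝ) / p)]
    · refine Finset.prod_congr rfl fun p hp => ?_
      ring
    · intro p hp
      have h1 := hpp p hp
      have h2 := (abs_le.1 (hchi p hp)).1
      have h3 : -(1 / 2) ≤ (chi p D : ℝ) / p := by
        rw [le_div_iff₀ (by linarith)]
        nlinarith
      linarith
  set vl : ℝ := ∑ n ∈ N.divisors, w n * Real.log n with hvl
  have hvlb : |vl| ≤ (N.divisors.card : ℝ) * (2 ^ N.primeFactors.card * Real.log N) := by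
    rw [hvl]
    refine (Finset.abs_sum_le_sum_abs _ _).trans ?_
    rw [← nsmul_eq_mul, ← Finset.sum_const]
    refine Finset.sum_le_sum fun n hn => ?_
    have hn1 : 1 ≤ n := Nat.pos_of_mem_divisors hn
    have hn1' : (1 : ℝ) ≤ n := by exact_mod_cast hn1
    rw [abs_mul, abs_of_nonneg (Real.log_nonneg hn1')]
    refine mul_le_mul ?_ ?_ (Real.log_nonneg hn1') (by positivity)
    · rw [hw]
      simp only
      rw [Finset.abs_prod, ← Finset.prod_const]
      refine Finset.prod_le_prod (fun p _ => abs_nonneg _) fun p hp => ?_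
      have h1 := hpp p hp
      have h2 := abs_le.1 (hchi p hp)
      split_ifs
      · rw [abs_neg, abs_div, abs_of_pos (by linarith : (0 : ℝ) < p),
          div_le_iff₀ (by linarith), abs_le]
        constructor <;> nlinarith
      · refine (abs_add_le _ _).trans ?_
        rw [abs_one, abs_div, abs_of_pos (by linarith : (0 : ℝ) < p)]
        have h3 : |(chi p D : ℝ)| / p ≤ 1 := by
          rw [div_le_one (by linarith)]
          exact (hchi p hp).trans (by linarith)
        linarith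
    · exact Real.log_le_log (by linarith) (by exact_mod_cast Nat.divisor_le hn)
  -- the main term
  have hD0 : (0 : ℝ) < D := by exact_mod_cast hD1
  have hsD : 0 < Real.sqrt D := Real.sqrt_pos.2 hD0
  have hQ : ∑ m ∈ Finset.Icc 1 ⌊M⌋₊, ∑ n ∈ N.divisors, cm P M N m / m * g m * w n *
      (Real.log (Real.sqrt D / (n * m)) + c0) =
      (∏ p ∈ N.primeFactors, (1 - 1 / (p : ℝ))) * ((Real.log (Real.sqrt D) + c0) * S0 - S1) -
        vl * S0 := by
    rw [← hv, hS0', hS1']
    have h1 : ∀ m ∈ Finset.Icc 1 ⌊M⌋₊, ∑ n ∈ N.divisors, cm P M N m / m * g m * w n *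
        (Real.log (Real.sqrt D / (n * m)) + c0) =
        (∑ n ∈ N.divisors, w n) * ((Real.log (Real.sqrt D) + c0) * (cm P M N m / m * g m) -
          cm P M N m / m * Real.log m * g m) - vl * (cm P M N m / m * g m) := by
      intro m hm
      have hm1 : (0 : ℝ) < m := by exact_mod_cast (Finset.mem_Icc.1 hm).1
      rw [hvl, Finset.sum_mul, Finset.sum_mul, ← Finset.sum_sub_distrib]
      refine Finset.sum_congr rfl fun n hn => ?_
      have hn1 : (0 : ℝ) < n := by exact_mod_cast Nat.pos_of_mem_divisors hn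
      rw [Real.log_div hsD.ne' (by positivity), Real.log_mul hn1.ne' hm1.ne']
      ring
    rw [Finset.sum_congr rfl h1, Finset.sum_sub_distrib, ← Finset.mul_sum,
      Finset.sum_sub_distrib, ← Finset.mul_sum, ← Finset.mul_sum]
  have hpz' : |ZD P M N D - ∑ m ∈ Finset.Icc 1 ⌊M⌋₊, ∑ n ∈ N.divisors, cm P M N m / m * g m * w n *
      (Real.log (Real.sqrt D / (n * m)) + c0)| ≤ X ^ (-1 : ℝ) := hpz
  rw [hQ] at hpz'
  have h1 : ZD P M N D - (∏ p ∈ N.primeFactors, (1 - 1 / (p : ℝ))) *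
      ((Real.log (Real.sqrt D) + c0) * S0 - S1) =
      (ZD P M N D - ((∏ p ∈ N.primeFactors, (1 - 1 / (p : ℝ))) *
        ((Real.log (Real.sqrt D) + c0) * S0 - S1) - vl * S0)) + (-(vl * S0)) := by ring
  rw [h1]
  refine (abs_add_le _ _).trans ?_
  rw [abs_neg, abs_mul]
  have h2 : |vl| * |S0| ≤ ((N.divisors.card : ℝ) * (2 ^ N.primeFactors.card * Real.log N) + 1) *
      |S0| := mul_le_mul_of_nonneg_right (by linarith) (abs_nonneg _)
  linarith

end Pool.Agent.H19.ADM
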