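import Pool.Agent.H65.AD.TargetsC

/-!
# The truncated coefficients (row GCB of the board adm_modules)
-/

set_option autoImplicit false

open MeasureTheory Set Filter
open scoped Real

namespace Pool.Agent.H19.ADM

open Pool.Agent.H31.CN Pool.Agent.H95.AD Pool.Agent.H50.CN Pool.Agent.H65.AD

lemma cm_le1 (P : Polynomial ℝ) : ∃ C : ℝ, 0 < C ∧ ∀ (M : ℝ) (N m : ℕ), 1 ≤ M → 1 ≤ m →
    |cm P M N m| ≤ C := by
  obtain ⟨C, hC⟩ := (isCompact_Icc (a := (0 : ℝ)) (b := 1)).exists_bound_of_continuousOn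
    (f := fun t => P.eval t) P.continuous.continuousOn
  have hC0 : 0 ≤ C := (norm_nonneg _).trans (hC 0 (by simp))
  refine ⟨C + 1, by linarith, fun M N m hM hm => ?_⟩
  unfold cm
  split_ifs with h
  · have hm1 : (1 : ℝ) ≤ m := by exact_mod_cast hm
    have hlM : 0 ≤ Real.log M := Real.log_nonneg hM
    have h1 : Real.log (M / m) = Real.log M - Real.log m :=
      Real.log_div (by linarith) (by linarith)
    have h2 : 0 ≤ Real.log m := Real.log_nonneg hm1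
    have h3 : Real.log m ≤ Real.log M := Real.log_le_log (by linarith) h.1
    have h4 : Real.log (M / m) / Real.log M ∈ Set.Icc (0 : ℝ) 1 := by
      rw [h1]
      exact ⟨div_nonneg (by linarith) hlM, div_le_one_of_le₀ (by linarith) hlM⟩
    have h5 := hC _ h4
    rw [Real.norm_eq_abs] at h5
    rw [abs_mul]
    calc |mr m| * |P.eval (Real.log (M / m) / Real.log M)| ≤ 1 * C :=
          mul_le_mul (mr_le m) h5 (abs_nonneg _) zero_le_one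
      _ ≤ C + 1 := by linarith
  · rw [abs_zero]
    linarith

lemma sum_dom {M X : ℝ} (h : M ≤ X) (F G : ℕ → ℝ) (hG : ∀ m, 0 ≤ G m)
    (h0 : ∀ m, ¬ Squarefree m → F m = 0) (h1 : ∀ m, 1 ≤ m → |F m| ≤ G m) :
    |∑ m ∈ Finset.Icc 1 ⌊M⌋₊, F m| ≤
      ∑ m ∈ (Finset.Icc 1 ⌊X⌋₊).filter (fun m => Squarefree m), G m := by
  calc |∑ m ∈ Finset.Icc 1 ⌊M⌋₊, F m| = |∑ m ∈ (Finset.Icc 1 ⌊M⌋₊).filter
        (fun m => Squarefree m), F m| := by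
        rw [Finset.sum_filter]
        congr 1
        refine Finset.sum_congr rfl fun m _ => ?_
        split_ifs with hm
        · rfl
        · exact h0 m hm
    _ ≤ ∑ m ∈ (Finset.Icc 1 ⌊M⌋₊).filter (fun m => Squarefree m), |F m| :=
        Finset.abs_sum_le_sum_abs _ _
    _ ≤ ∑ m ∈ (Finset.Icc 1 ⌊M⌋₊).filter (fun m => Squarefree m), G m :=
        Finset.sum_le_sum fun m hm => h1 m (by
          rw [Finset.mem_filter, Finset.mem_Icc] at hm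
          exact hm.1.1)
    _ ≤ _ := Finset.sum_le_sum_of_subset_of_nonneg (Finset.filter_subset_filter _
        (Finset.Icc_subset_Icc le_rfl (Nat.floor_le_floor h))) fun m _ _ => hG m

theorem pf_GCB (hLLB : T_LLB) (hSGN : T_SGN) : T_GCB := by
  intro P N κ hN hsq hκ
  obtain ⟨CL, hCL, hL⟩ := hLLB κ hκ
  obtain ⟨CN, hCN, hS⟩ := hSGN N hN hsq
  obtain ⟨CP, hCP, hP⟩ := cm_le1 P
  have hcard : 0 < N.divisors.card := Finset.card_pos.2 ⟨1, Nat.one_mem_divisors.2 (by omega)⟩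
  refine ⟨(N.divisors.card : ℝ) ^ 2 * CN ^ 3 * CP ^ 2 * CL, by positivity, ?_⟩
  intro X M δ K x κ' r t hX hM hMX hK hx hrt hκ'
  have hB := (hS x hx).2.2
  set S : ℕ → ℕ → ℝ := fun m₁ m₂ => ∑ y ∈ (Finset.Icc 1 ⌊X⌋₊) ×ˢ (Finset.Icc 1 ⌊X⌋₊),
        |LL r t m₁ m₂ y.1 y.2| / ((y.1 : ℝ) * y.2) with hSd
  have hS0 : ∀ m₁ m₂, 0 ≤ S m₁ m₂ := fun m₁ m₂ => Finset.sum_nonneg fun y _ => by positivity
  have hLX := hL X r t hX hrt
  set R : ℝ := Real.log X ^ (30 : ℕ) * (((r * t : ℕ) : ℝ) ^ κ / ((r : ℝ) * (t : ℝ) ^ 2)) with hR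
  have hLX' : ∑ m₁ ∈ (Finset.Icc 1 ⌊X⌋₊).filter (fun m => Squarefree m),
      ∑ m₂ ∈ (Finset.Icc 1 ⌊X⌋₊).filter (fun m => Squarefree m), S m₁ m₂ ≤ CL * R := by
    rw [hR, ← mul_assoc]
    exact hLX
  -- the sum over `y`
  have hY : ∀ n₁ n₂ m₁ m₂ : ℕ, |∑ y ∈ Bx X δ (n₁ * n₂ * (m₁ * m₂)),
      κ' (n₁ * n₂ * (m₁ * m₂)) y.1 y.2 * lN N x n₁ n₂ y.1 y.2 * LL r t m₁ m₂ y.1 y.2| ≤
        K * CN * S m₁ m₂ := by
    intro n₁ n₂ m₁ m₂
    refine (Finset.abs_sum_le_sum_abs _ _).trans ?_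
    rw [hSd]
    simp only
    rw [Finset.mul_sum]
    have hsub : Bx X δ (n₁ * n₂ * (m₁ * m₂)) ⊆
        (Finset.Icc 1 ⌊X⌋₊) ×ˢ (Finset.Icc 1 ⌊X⌋₊) := by
      unfold Bx
      exact Finset.filter_subset _ _
    refine le_trans ?_ (Finset.sum_le_sum_of_subset_of_nonneg hsub
      fun y _ _ => by positivity)
    refine Finset.sum_le_sum fun y hy => ?_
    rw [abs_mul, abs_mul]
    have e1 := hκ' _ y hy
    have e2 := (hB n₁ n₂ y.1 y.2).2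
    calc |κ' (n₁ * n₂ * (m₁ * m₂)) y.1 y.2| * |lN N x n₁ n₂ y.1 y.2| * |LL r t m₁ m₂ y.1 y.2|
        ≤ K / ((y.1 : ℝ) * y.2) * CN * |LL r t m₁ m₂ y.1 y.2| :=
          mul_le_mul_of_nonneg_right (mul_le_mul e1 e2 (abs_nonneg _) (by positivity))
            (abs_nonneg _)
      _ = K * CN * (|LL r t m₁ m₂ y.1 y.2| / ((y.1 : ℝ) * y.2)) := by ring
  -- the sum over `m₁`, `m₂`
  have hMM : ∀ n₁ n₂ : ℕ, |∑ m₁ ∈ Finset.Icc 1 ⌊M⌋₊, ∑ m₂ ∈ Finset.Icc 1 ⌊M⌋₊,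
      cm P M N m₁ * cm P M N m₂ * ∑ y ∈ Bx X δ (n₁ * n₂ * (m₁ * m₂)),
      κ' (n₁ * n₂ * (m₁ * m₂)) y.1 y.2 * lN N x n₁ n₂ y.1 y.2 * LL r t m₁ m₂ y.1 y.2| ≤
        CP ^ 2 * (K * CN) * (CL * R) := by
    intro n₁ n₂
    refine (sum_dom hMX _ (fun m₁ => ∑ m₂ ∈ (Finset.Icc 1 ⌊X⌋₊).filter (fun m => Squarefree m),
      CP ^ 2 * (K * CN) * S m₁ m₂) ?_ ?_ ?_).trans ?_
    · exact fun m₁ => Finset.sum_nonneg fun m₂ _ =>
        mul_nonneg (by positivity) (hS0 m₁ m₂)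
    · intro m₁ hm₁
      refine Finset.sum_eq_zero fun m₂ _ => ?_
      rw [cm_sq P M N m₁ hm₁]
      ring
    · intro m₁ hm₁
      refine sum_dom hMX _ _ ?_ ?_ ?_
      · exact fun m₂ => mul_nonneg (by positivity) (hS0 m₁ m₂)
      · intro m₂ hm₂
        rw [cm_sq P M N m₂ hm₂]
        ring
      · intro m₂ hm₂
        rw [abs_mul, abs_mul]
        have e1 := hP M N m₁ hM hm₁
        have e2 := hP M N m₂ hM hm₂
        have e3 := hY n₁ n₂ m₁ m₂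
        have e4 : |cm P M N m₁| * |cm P M N m₂| ≤ CP * CP :=
          mul_le_mul e1 e2 (abs_nonneg _) hCP.le
        refine (mul_le_mul e4 e3 (abs_nonneg _) (by positivity)).trans (le_of_eq ?_)
        ring
    · simp only [← Finset.mul_sum]
      exact mul_le_mul_of_nonneg_left hLX' (by positivity)
  unfold gC
  have hfin : |∑ n₁ ∈ N.divisors, ∑ n₂ ∈ N.divisors, anx N x n₁ * anx N x n₂ *
    ∑ m₁ ∈ Finset.Icc 1 ⌊M⌋₊, ∑ m₂ ∈ Finset.Icc 1 ⌊M⌋₊, cm P M N m₁ * cm P M N m₂ *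
      ∑ y ∈ Bx X δ (n₁ * n₂ * (m₁ * m₂)), κ' (n₁ * n₂ * (m₁ * m₂)) y.1 y.2 *
        lN N x n₁ n₂ y.1 y.2 * LL r t m₁ m₂ y.1 y.2| ≤
      ∑ _n₁ ∈ N.divisors, ∑ _n₂ ∈ N.divisors, CN * CN * (CP ^ 2 * (K * CN) * (CL * R)) := by
    refine (Finset.abs_sum_le_sum_abs _ _).trans (Finset.sum_le_sum fun n₁ _ => ?_)
    refine (Finset.abs_sum_le_sum_abs _ _).trans (Finset.sum_le_sum fun n₂ _ => ?_)
    rw [abs_mul, abs_mul]
    have e1 := (hB n₁ n₂ 0 0).1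
    have e2 := (hB n₂ n₁ 0 0).1
    exact mul_le_mul (mul_le_mul e1 e2 (abs_nonneg _) hCN.le) (hMM n₁ n₂) (abs_nonneg _)
      (by positivity)
  refine hfin.trans (le_of_eq ?_)
  rw [Finset.sum_const, Finset.sum_const, nsmul_eq_mul, nsmul_eq_mul, hR]
  ring

end Pool.Agent.H19.ADM
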