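import Pool.Agent.H65.AD.TargetsC

/-!
# The kernel of the main part (row KMD of the board adm_modules)
-/

set_option autoImplicit false

open MeasureTheory Set Filter
open scoped Real

namespace Pool.Agent.H19.ADM

open Pool.Agent.H31.CN Pool.Agent.H95.AD Pool.Agent.H50.CN Pool.Agent.H65.AD

lemma hz (a b : ℝ) {u : ℝ} (hb : 0 < b) (hu : 0 < u) :
    HasDerivAt (fun v => a / (b * Real.sqrt v)) (-(a / (b * Real.sqrt u)) / (2 * u)) u := by
  have hs : 0 < Real.sqrt u := Real.sqrt_pos.2 hu
  have h1 : HasDerivAt (fun v => b * Real.sqrt v) (b * (1 / (2 * Real.sqrt u))) u :=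
    (Real.hasDerivAt_sqrt hu.ne').const_mul b
  have h2 := (hasDerivAt_const u a).div h1 (by positivity)
  refine h2.congr_deriv ?_
  have h3 : Real.sqrt u ^ 2 = u := Real.sq_sqrt hu.le
  have h4 : 2 * u = 2 * Real.sqrt u ^ 2 := by rw [h3]
  rw [h4]
  field_simp
  ring

lemma hl (A : ℝ) {u : ℝ} (hu : 0 < u) :
    HasDerivAt (fun v => Real.log (Real.sqrt v) - Real.log A + c0) (1 / (2 * u)) u := by
  have hs : 0 < Real.sqrt u := Real.sqrt_pos.2 hu
  have h1 := ((Real.hasDerivAt_sqrt hu.ne').log hs.ne').sub_const (Real.log A)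
  have h2 := h1.add_const c0
  refine h2.congr_deriv ?_
  have h3 : Real.sqrt u ^ 2 = u := Real.sq_sqrt hu.le
  have h4 : 2 * u = 2 * Real.sqrt u ^ 2 := by rw [h3]
  rw [h4]
  field_simp

/-- The derivative of the kernel. -/
noncomputable def dk (n e A : ℕ) (u : ℝ) : ℝ :=
  deriv Vk ((e : ℝ) ^ 2 * A / ((n : ℝ) * Real.sqrt u)) *
    (-((e : ℝ) ^ 2 * A / ((n : ℝ) * Real.sqrt u)) / (2 * u)) / ((e : ℝ) * A) *
      (Real.log (Real.sqrt u) - Real.log A + c0) +
    Vk ((e : ℝ) ^ 2 * A / ((n : ℝ) * Real.sqrt u)) / ((e : ℝ) * A) * (1 / (2 * u))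

lemma hd_kM {C : ℝ} (hV : ∀ x : ℝ, 0 < x → DifferentiableAt ℝ Vk x ∧
    |deriv Vk x| ≤ C * Real.exp (-(6 * x))) {n e A : ℕ} (hn : 1 ≤ n) (he : 1 ≤ e) (hA : 1 ≤ A)
    {u : ℝ} (hu : 0 < u) : HasDerivAt (fun v => kM v n e A) (dk n e A u) u := by
  have hn' : (0 : ℝ) < n := by exact_mod_cast hn
  have he' : (0 : ℝ) < e := by exact_mod_cast he
  have hA' : (0 : ℝ) < A := by exact_mod_cast hA
  have hs : 0 < Real.sqrt u := Real.sqrt_pos.2 hu
  have hzp : 0 < (e : ℝ) ^ 2 * A / ((n : ℝ) * Real.sqrt u) := by positivity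
  have h1 := (hV _ hzp).1.hasDerivAt
  have h2 := (h1.comp u (hz ((e : ℝ) ^ 2 * A) n hn' hu)).div_const ((e : ℝ) * A)
  exact h2.mul (hl A hu)

theorem pf_KMD (hVK : T_VK) : T_KMD := by
  obtain ⟨C, hC, h1, -, h3, h4⟩ := hVK
  intro η hη
  set K : ℝ := 2 + |Real.log η| + |c0| with hK
  have hK0 : 2 ≤ K := by
    have := abs_nonneg (Real.log η)
    have := abs_nonneg c0
    linarith
  refine ⟨C * (K + 1) * (1 + 1 / η), by positivity, ?_⟩
  intro X u n e A hX hXu huX hn he hA hAX
  have hn' : (0 : ℝ) < n := by exact_mod_cast hn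
  have he' : (0 : ℝ) < e := by exact_mod_cast he
  have hA' : (0 : ℝ) < A := by exact_mod_cast hA
  have hA1 : (1 : ℝ) ≤ A := by exact_mod_cast hA
  have hX0 : 0 < X := by linarith
  have hu : 0 < u := lt_of_lt_of_le (by positivity) hXu
  have hs : 0 < Real.sqrt u := Real.sqrt_pos.2 hu
  have hlX : 1 ≤ Real.log X := by
    rw [Real.le_log_iff_exp_le hX0]
    have := Real.exp_one_lt_d9
    linarith
  set z : ℝ := (e : ℝ) ^ 2 * A / ((n : ℝ) * Real.sqrt u) with hzd
  have hzp : 0 < z := by positivity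
  set l : ℝ := Real.log (Real.sqrt u) - Real.log A + c0 with hld
  have hlb : |l| ≤ K * Real.log X := by
    have e1 : Real.log (Real.sqrt u) = Real.log u / 2 := Real.log_sqrt hu.le
    have e2 : Real.log u ≤ Real.log X := Real.log_le_log hu huX
    have e3 : Real.log η + Real.log X ≤ Real.log u := by
      rw [← Real.log_mul hη.ne' hX0.ne']
      exact Real.log_le_log (by positivity) hXu
    have e4 : 0 ≤ Real.log A := Real.log_nonneg hA1
    have e5 : Real.log A ≤ Real.log X := Real.log_le_log hA' hAX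
    have e6 := neg_abs_le (Real.log η)
    have e7 := neg_abs_le c0
    have e8 := le_abs_self c0
    have e9 := abs_nonneg (Real.log η)
    have e10 := abs_nonneg c0
    have e11 : |Real.log η| ≤ |Real.log η| * Real.log X := le_mul_of_one_le_right e9 hlX
    have e12 : |c0| ≤ |c0| * Real.log X := le_mul_of_one_le_right e10 hlX
    have e13 : K * Real.log X = 2 * Real.log X + |Real.log η| * Real.log X +
        |c0| * Real.log X := by rw [hK]; ring
    rw [abs_le, e13, hld, e1]
    constructor <;> linarith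
  have hV : |Vk z| ≤ C := by
    refine (h1 z hzp).trans ?_
    have : Real.exp (-(6 * z)) ≤ 1 := Real.exp_le_one_iff.2 (by linarith)
    nlinarith
  have hD : |deriv Vk z| * z ≤ C := by
    have e1 := (h3 z hzp).2
    have e2 : Real.exp (-(6 * z)) * z ≤ 1 := by
      have e3 : z ≤ Real.exp (6 * z) := by
        have := Real.add_one_le_exp (6 * z)
        linarith
      rw [Real.exp_neg, inv_mul_le_iff₀ (Real.exp_pos _), mul_one]
      exact e3
    calc |deriv Vk z| * z ≤ C * Real.exp (-(6 * z)) * z :=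
          mul_le_mul_of_nonneg_right e1 hzp.le
      _ = C * (Real.exp (-(6 * z)) * z) := by ring
      _ ≤ C * 1 := mul_le_mul_of_nonneg_left e2 hC.le
      _ = C := mul_one C
  have hda := hd_kM h3 hn he hA hu
  refine ⟨?_, ?_, ?_, ?_⟩
  · have e1 : kM u n e A = Vk z / ((e : ℝ) * A) * l := rfl
    rw [e1, abs_mul, abs_div, abs_of_pos (by positivity : (0 : ℝ) < e * A)]
    have e2 : C * K ≤ C * (K + 1) * (1 + 1 / η) := by
      have : 0 ≤ C * (K + 1) * (1 / η) := by positivity
      nlinarith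
    calc |Vk z| / ((e : ℝ) * A) * |l| ≤ C / ((e : ℝ) * A) * (K * Real.log X) :=
          mul_le_mul (div_le_div_of_nonneg_right hV (by positivity)) hlb (abs_nonneg _)
            (by positivity)
      _ = C * K * (Real.log X / ((e : ℝ) * A)) := by ring
      _ ≤ C * (K + 1) * (1 + 1 / η) * (Real.log X / ((e : ℝ) * A)) :=
          mul_le_mul_of_nonneg_right e2 (by positivity)
      _ = _ := by ring
  · exact hda.differentiableAt.hasDerivAt
  · rw [hda.deriv]
    have e1 : dk n e A u = (deriv Vk z * (-z / (2 * u)) * l + Vk z * (1 / (2 * u))) /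
        ((e : ℝ) * A) := by
      unfold dk
      rw [← hzd, ← hld]
      ring
    rw [e1, abs_div, abs_of_pos (by positivity : (0 : ℝ) < e * A)]
    refine div_le_div_of_nonneg_right ?_ (by positivity)
    have e2 : |deriv Vk z * (-z / (2 * u)) * l + Vk z * (1 / (2 * u))| ≤
        C * (1 / (2 * u)) * (K * Real.log X) + C * (1 / (2 * u)) := by
      refine (abs_add_le _ _).trans (add_le_add ?_ ?_)
      · rw [abs_mul, abs_mul]
        have e3 : |-z / (2 * u)| = z * (1 / (2 * u)) := by
          rw [abs_div, abs_neg, abs_of_pos hzp, abs_of_pos (by positivity : (0 : ℝ) < 2 * u)]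
          ring
        rw [e3, ← mul_assoc]
        exact mul_le_mul (mul_le_mul_of_nonneg_right hD (by positivity)) hlb (abs_nonneg _)
          (by positivity)
      · rw [abs_mul, abs_of_pos (by positivity : (0 : ℝ) < 1 / (2 * u))]
        exact mul_le_mul_of_nonneg_right hV (by positivity)
    refine e2.trans ?_
    have e3 : 1 / (2 * u) ≤ 1 / η * (1 / X) := by
      rw [one_div_mul_one_div]
      refine one_div_le_one_div_of_le (by positivity) ?_
      linarith
    calc C * (1 / (2 * u)) * (K * Real.log X) + C * (1 / (2 * u))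
        ≤ C * (1 / (2 * u)) * (K * Real.log X) + C * (1 / (2 * u)) * Real.log X := by
          have : 0 ≤ C * (1 / (2 * u)) := by positivity
          nlinarith
      _ = C * (K + 1) * Real.log X * (1 / (2 * u)) := by ring
      _ ≤ C * (K + 1) * Real.log X * (1 / η * (1 / X)) :=
          mul_le_mul_of_nonneg_left e3 (by positivity)
      _ = C * (K + 1) * (1 / η) * (Real.log X / X) := by ring
      _ ≤ C * (K + 1) * (1 + 1 / η) * (Real.log X / X) := by
          refine mul_le_mul_of_nonneg_right ?_ (by positivity)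
          refine mul_le_mul_of_nonneg_left (by linarith) (by positivity)
      _ = C * (K + 1) * (1 + 1 / η) * Real.log X / X := by ring
  · have e1 : ∀ v ∈ Ioi (0 : ℝ), deriv (fun v => kM v n e A) v = dk n e A v := fun v hv =>
      (hd_kM h3 hn he hA hv).deriv
    refine ContinuousOn.congr ?_ e1
    have c1 : ContinuousOn (fun v : ℝ => (e : ℝ) ^ 2 * A / ((n : ℝ) * Real.sqrt v)) (Ioi 0) :=
      fun v hv => (hz _ _ hn' hv).continuousAt.continuousWithinAt
    have c2 : MapsTo (fun v : ℝ => (e : ℝ) ^ 2 * A / ((n : ℝ) * Real.sqrt v)) (Ioi 0) (Ioi 0) := by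
      intro v hv
      have : 0 < Real.sqrt v := Real.sqrt_pos.2 hv
      exact mem_Ioi.2 (by positivity)
    have c3 : ContinuousOn Vk (Ioi 0) := fun v hv => (h3 v hv).1.continuousAt.continuousWithinAt
    have c4 : ContinuousOn (fun v : ℝ => 2 * v) (Ioi 0) := by fun_prop
    have c5 : ∀ v ∈ Ioi (0 : ℝ), 2 * v ≠ 0 := fun v hv => by
      have : 0 < v := hv
      positivity
    have c6 : ContinuousOn (fun v : ℝ => Real.log (Real.sqrt v) - Real.log A + c0) (Ioi 0) :=
      fun v hv => (hl A hv).continuousAt.continuousWithinAt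
    unfold dk
    refine ContinuousOn.add (ContinuousOn.mul (ContinuousOn.div_const (ContinuousOn.mul
      (h4.comp c1 c2) (ContinuousOn.div c1.neg c4 c5)) _) c6)
      (ContinuousOn.mul ((c3.comp c1 c2).div_const _)
        (ContinuousOn.div continuousOn_const c4 c5))

end Pool.Agent.H19.ADM
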