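import Pool.Agent.H65.AD.TargetsC

/-!
# The tail of the main part (row TLB of the board adm_modules)
-/

set_option autoImplicit false

open MeasureTheory Set Filter
open scoped Real

namespace Pool.Agent.H19.ADM

open Pool.Agent.H31.CN Pool.Agent.H95.AD Pool.Agent.H50.CN Pool.Agent.H65.AD

/-! ### Dependence on the characters at the small primes -/

lemma anx_congr {N : ℕ} {x x' : ℕ → ℤ} (h : ∀ p ∈ N.primeFactors, x p = x' p) (n : ℕ) :
    anx N x n = anx N x' n := by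
  unfold anx
  exact Finset.prod_congr rfl fun p hp => by rw [h p hp]

lemma lN_congr {N : ℕ} {x x' : ℕ → ℤ} (h : ∀ p ∈ N.primeFactors, x p = x' p)
    (n₁ n₂ e A : ℕ) : lN N x n₁ n₂ e A = lN N x' n₁ n₂ e A := by
  unfold lN
  exact Finset.prod_congr rfl fun p hp => by rw [h p hp]

lemma TF_congr (P : Polynomial ℝ) (M : ℝ) {N : ℕ} (X δ : ℝ) (Y : ℕ) (W : ℝ) {x x' : ℕ → ℤ}
    (h : ∀ p ∈ N.primeFactors, x p = x' p) (k : ℕ → ℕ → ℕ → ℝ) (D : ℕ) :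
    TF P M N X δ Y W x k D = TF P M N X δ Y W x' k D := by
  unfold TF gC
  simp only [anx_congr h, lN_congr h]

/-! ### Derivatives and continuity -/

lemma gC_deriv (P : Polynomial ℝ) (M : ℝ) {N : ℕ} (X δ : ℝ) (x : ℕ → ℤ)
    (k : ℝ → ℕ → ℕ → ℕ → ℝ) (k' : ℕ → ℕ → ℕ → ℝ) (u : ℝ)
    (h : ∀ n : ℕ, 1 ≤ n → ∀ y ∈ Bx X δ n, HasDerivAt (fun v => k v n y.1 y.2) (k' n y.1 y.2) u)
    (r t : ℕ) :
    HasDerivAt (fun v => gC P M N X δ x (k v) r t) (gC P M N X δ x k' r t) u := by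
  unfold gC
  refine HasDerivAt.fun_sum fun n₁ hn₁ => HasDerivAt.fun_sum fun n₂ hn₂ =>
    HasDerivAt.const_mul _ (HasDerivAt.fun_sum fun m₁ hm₁ => HasDerivAt.fun_sum fun m₂ hm₂ =>
      HasDerivAt.const_mul _ (HasDerivAt.fun_sum fun y hy => ?_))
  refine ((h _ ?_ y hy).mul_const _).mul_const _
  have h1 := Nat.pos_of_mem_divisors hn₁
  have h2 := Nat.pos_of_mem_divisors hn₂
  have h3 := (Finset.mem_Icc.1 hm₁).1
  have h4 := (Finset.mem_Icc.1 hm₂).1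
  exact Nat.mul_pos (Nat.mul_pos h1 h2) (Nat.mul_pos h3 h4)

lemma TF_deriv (P : Polynomial ℝ) (M : ℝ) {N : ℕ} (X δ : ℝ) (Y : ℕ) (W : ℝ) (x : ℕ → ℤ)
    (k : ℝ → ℕ → ℕ → ℕ → ℝ) (k' : ℕ → ℕ → ℕ → ℝ) (u : ℝ)
    (h : ∀ n : ℕ, 1 ≤ n → ∀ y ∈ Bx X δ n, HasDerivAt (fun v => k v n y.1 y.2) (k' n y.1 y.2) u)
    (D : ℕ) :
    HasDerivAt (fun v => TF P M N X δ Y W x (k v) D) (TF P M N X δ Y W x k' D) u := by
  unfold TF
  exact HasDerivAt.fun_sum fun z _ =>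
    HasDerivAt.const_mul _ (gC_deriv P M X δ x k k' u h z.1 z.2)

lemma TF_cont (P : Polynomial ℝ) (M : ℝ) {N : ℕ} (X δ : ℝ) (Y : ℕ) (W : ℝ) (x : ℕ → ℤ)
    (k : ℝ → ℕ → ℕ → ℕ → ℝ) (s : Set ℝ)
    (h : ∀ n : ℕ, 1 ≤ n → ∀ y ∈ Bx X δ n, ContinuousOn (fun v => k v n y.1 y.2) s)
    (D : ℕ) : ContinuousOn (fun v => TF P M N X δ Y W x (k v) D) s := by
  unfold TF gC
  refine continuousOn_finsetSum _ fun z _ => ContinuousOn.mul continuousOn_const ?_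
  refine continuousOn_finsetSum _ fun n₁ hn₁ => continuousOn_finsetSum _ fun n₂ hn₂ =>
    ContinuousOn.mul continuousOn_const (continuousOn_finsetSum _ fun m₁ hm₁ =>
      continuousOn_finsetSum _ fun m₂ hm₂ => ContinuousOn.mul continuousOn_const
        (continuousOn_finsetSum _ fun y hy => ?_))
  refine ((h _ ?_ y hy).mul continuousOn_const).mul continuousOn_const
  have h1 := Nat.pos_of_mem_divisors hn₁
  have h2 := Nat.pos_of_mem_divisors hn₂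
  have h3 := (Finset.mem_Icc.1 hm₁).1
  have h4 := (Finset.mem_Icc.1 hm₂).1
  exact Nat.mul_pos (Nat.mul_pos h1 h2) (Nat.mul_pos h3 h4)

lemma mem_Bx {X δ : ℝ} {n : ℕ} {y : ℕ × ℕ} (hX : 0 ≤ X) (h : y ∈ Bx X δ n) :
    1 ≤ n ∧ 1 ≤ y.1 ∧ 1 ≤ y.2 ∧ (y.2 : ℝ) ≤ X := by
  unfold Bx at h
  rw [Finset.mem_filter, Finset.mem_product, Finset.mem_Icc, Finset.mem_Icc] at h
  obtain ⟨⟨⟨h1, -⟩, h2, h3⟩, h4⟩ := h
  refine ⟨?_, h1, h2, ?_⟩
  · rcases Nat.eq_zero_or_pos n with h0 | h0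
    · exfalso
      rw [h0] at h4
      have h5 : (0 : ℝ) < (y.1 : ℝ) ^ 2 * y.2 := by
        have e1 : (0 : ℝ) < y.1 := by exact_mod_cast h1
        have e2 : (0 : ℝ) < y.2 := by exact_mod_cast h2
        positivity
      simp only [Nat.cast_zero, zero_mul] at h4
      linarith
    · exact h0
  · exact (Nat.cast_le.2 h3).trans (Nat.floor_le hX)

/-! ### The size of the error terms -/

lemma lim_E (c c₂ ρ : ℝ) (hρ : ρ < 1) : ∃ X₀ : ℝ, ∀ X : ℝ, X₀ ≤ X → 3 ≤ X →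
    c * (Real.log X ^ 62 * (X * Real.log X ^ (-100 : ℝ) + c₂ * X ^ ρ)) ≤ X / Real.log X := by
  have t1 : Tendsto (fun X : ℝ => c * Real.log X ^ (-37 : ℝ)) atTop (nhds 0) := by
    have := ((tendsto_rpow_neg_atTop (by norm_num : (0 : ℝ) < 37)).comp
      Real.tendsto_log_atTop).const_mul c
    simpa using this
  have t2 : Tendsto (fun X : ℝ => c * c₂ * (Real.log X ^ (63 : ℝ) / X ^ (1 - ρ))) atTop
      (nhds 0) := by
    have := ((isLittleO_log_rpow_rpow_atTop (63 : ℝ)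
      (by linarith : 0 < 1 - ρ)).tendsto_div_nhds_zero).const_mul (c * c₂)
    simpa using this
  have e1 := t1.eventually (gt_mem_nhds (by norm_num : (0 : ℝ) < 1 / 2))
  have e2 := t2.eventually (gt_mem_nhds (by norm_num : (0 : ℝ) < 1 / 2))
  obtain ⟨X₀, hX₀⟩ := (e1.and e2).exists_forall_of_atTop
  refine ⟨X₀, fun X hX hX3 => ?_⟩
  obtain ⟨h1, h2⟩ := hX₀ X hX
  have hX0 : 0 < X := by linarith
  have hL : 1 ≤ Real.log X := by
    rw [Real.le_log_iff_exp_le hX0]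
    have := Real.exp_one_lt_d9
    linarith
  have hL0 : 0 < Real.log X := by linarith
  set L := Real.log X with hLd
  have f1 : L ^ 62 * L ^ (-100 : ℝ) = L ^ (-37 : ℝ) / L := by
    rw [eq_div_iff hL0.ne', ← Real.rpow_natCast, ← Real.rpow_add hL0]
    nth_rewrite 2 [← Real.rpow_one L]
    rw [← Real.rpow_add hL0]
    norm_num
  have f2 : X ^ ρ = X / X ^ (1 - ρ) := by
    rw [Real.rpow_sub hX0, Real.rpow_one]
    have : 0 < X ^ ρ := Real.rpow_pos_of_pos hX0 ρ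
    field_simp
  have f3 : L ^ (63 : ℝ) = L ^ 62 * L := by
    have : (63 : ℝ) = ((63 : ℕ) : ℝ) := by norm_num
    rw [this, Real.rpow_natCast]
    ring
  rw [f3] at h2
  have f4 : c * (L ^ 62 * (X * L ^ (-100 : ℝ) + c₂ * X ^ ρ)) =
      X / L * (c * L ^ (-37 : ℝ)) + X / L * (c * c₂ * (L ^ 62 * L / X ^ (1 - ρ))) := by
    rw [f2]
    have g1 : c * (L ^ 62 * (X * L ^ (-100 : ℝ) + c₂ * (X / X ^ (1 - ρ)))) =
        c * X * (L ^ 62 * L ^ (-100 : ℝ)) + c * c₂ * (L ^ 62 * (X / X ^ (1 - ρ))) := by ring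
    rw [g1, f1]
    field_simp
  rw [f4]
  have hXL : 0 < X / L := by positivity
  nlinarith

/-- The bound for one choice of the characters at the small primes. -/
lemma one_x (hSMR : T_SMR) {P : Polynomial ℝ} {N : ℕ} {θ δ η κ CK CG CH : ℝ} (hN : 1 ≤ N)
    (h2N : 2 ∣ N) (hθ : 0 < θ) (hθ1 : θ ≤ 1) (hη : 0 < η) (hη1 : η ≤ 1) (hCK : 0 < CK)
    (hCG : 0 < CG)
    (hK : ∀ (X u : ℝ) (n e A : ℕ), 3 ≤ X → η * X ≤ u → u ≤ X →
      1 ≤ n → 1 ≤ e → 1 ≤ A → (A : ℝ) ≤ X →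
      |kM u n e A| ≤ CK * Real.log X / ((e : ℝ) * A) ∧
      HasDerivAt (fun v => kM v n e A) (deriv (fun v => kM v n e A) u) u ∧
      |deriv (fun v => kM v n e A) u| ≤ CK * Real.log X / X / ((e : ℝ) * A) ∧
      ContinuousOn (deriv (fun v => kM v n e A)) (Ioi 0))
    (hG : ∀ (X M δ K : ℝ) (x : ℕ → ℤ) (κ' : ℕ → ℕ → ℕ → ℝ) (r t : ℕ), 3 ≤ X → 1 ≤ M →
      M ≤ X → 0 ≤ K →
      (∀ p ∈ N.primeFactors, x p = 1 ∨ x p = 0 ∨ x p = -1) → Squarefree (r * t) →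
      (∀ (n : ℕ) (y : ℕ × ℕ), y ∈ Bx X δ n → |κ' n y.1 y.2| ≤ K / ((y.1 : ℝ) * y.2)) →
      |gC P M N X δ x κ' r t| ≤
        CG * K * Real.log X ^ (30 : ℕ) * (((r * t : ℕ) : ℝ) ^ κ / ((r : ℝ) * (t : ℝ) ^ 2)))
    (hH : ∀ (X W K : ℝ) (N Y : ℕ) (h : ℕ × ℕ → ℝ), 1 ≤ X → 1 ≤ W → 0 ≤ K → 1 ≤ N → 2 ∣ N →
      (∀ z ∈ idT N Y W, |h z| ≤
        K * (((z.1 * z.2 : ℕ) : ℝ) ^ κ / ((z.1 : ℝ) * (z.2 : ℝ) ^ 2))) →
      ∑ D ∈ Finset.Icc 1 ⌊X⌋₊,
        (∑ z ∈ idT N Y W, xD z.1 D * (if z.2 ∣ D then 1 else 0) * h z) ^ 2 ≤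
        CH * K ^ 2 * (X * W ^ (-(1 / 2) : ℝ) + (Y : ℝ) ^ (1 + 2 * κ)))
    {X : ℝ} (hX : 3 ≤ X) (Y : ℕ) {W : ℝ} (hW : 1 ≤ W) {x : ℕ → ℤ}
    (hx : ∀ p ∈ N.primeFactors, x p = 1 ∨ x p = 0 ∨ x p = -1) :
    ∑ D ∈ faE η X, (TF P (X ^ θ) N X δ Y W x (kM D) D) ^ 2 ≤
      4 * (CH * (CG * CK) ^ 2 * (Real.log X ^ 62 *
        (X * W ^ (-(1 / 2) : ℝ) + (Y : ℝ) ^ (1 + 2 * κ)))) := by
  have hX0 : 0 < X := by linarith
  have hL : 1 ≤ Real.log X := by
    rw [Real.le_log_iff_exp_le hX0]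
    have := Real.exp_one_lt_d9
    linarith
  have hM1 : 1 ≤ X ^ θ := Real.one_le_rpow (by linarith) hθ.le
  have hMX : X ^ θ ≤ X := by
    calc X ^ θ ≤ X ^ (1 : ℝ) := Real.rpow_le_rpow_of_exponent_le (by linarith) hθ1
      _ = X := Real.rpow_one X
  have hsub : faE η X ⊆ Finset.Icc 1 ⌊X⌋₊ := by
    unfold faE fam
    exact (Finset.filter_subset _ _).trans (Finset.filter_subset _ _)
  set Z : ℝ := X * W ^ (-(1 / 2) : ℝ) + (Y : ℝ) ^ (1 + 2 * κ) with hZ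
  have hZ0 : 0 ≤ Z := by positivity
  -- the general bound
  have hgen : ∀ (K : ℝ) (k : ℕ → ℕ → ℕ → ℝ), 0 ≤ K →
      (∀ (n : ℕ) (y : ℕ × ℕ), y ∈ Bx X δ n → |k n y.1 y.2| ≤ K / ((y.1 : ℝ) * y.2)) →
      ∑ D ∈ faE η X, (TF P (X ^ θ) N X δ Y W x k D) ^ 2 ≤
        CH * (CG * K * Real.log X ^ (30 : ℕ)) ^ 2 * Z := by
    intro K k hK0 hk
    refine le_trans (Finset.sum_le_sum_of_subset_of_nonneg hsub fun D _ _ => sq_nonneg _) ?_
    refine hH X W (CG * K * Real.log X ^ (30 : ℕ)) N Y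
      (fun z => gC P (X ^ θ) N X δ x k z.1 z.2) (by linarith) hW (by positivity) hN h2N ?_
    intro z hz
    unfold idT idx at hz
    rw [Finset.mem_filter, Finset.mem_filter] at hz
    exact hG X (X ^ θ) δ K x k z.1 z.2 hX hM1 hMX hK0 hx hz.1.2.1 hk
  have hB0 : 0 ≤ CH * (CG * (CK * Real.log X / X) * Real.log X ^ (30 : ℕ)) ^ 2 * Z := by
    refine le_trans (Finset.sum_nonneg fun D _ => sq_nonneg _)
      (hgen (CK * Real.log X / X) (fun _ _ _ => 0) (by positivity) fun n y _ => ?_)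
    rw [abs_zero]
    positivity
  have hmem : ∀ u : ℝ, η * X ≤ u → u ≤ X → ∀ n : ℕ, ∀ y ∈ Bx X δ n,
      |kM u n y.1 y.2| ≤ CK * Real.log X / ((y.1 : ℝ) * y.2) ∧
      HasDerivAt (fun v => kM v n y.1 y.2) (deriv (fun v => kM v n y.1 y.2) u) u ∧
      |deriv (fun v => kM v n y.1 y.2) u| ≤ CK * Real.log X / X / ((y.1 : ℝ) * y.2) ∧
      ContinuousOn (deriv (fun v => kM v n y.1 y.2)) (Ioi 0) := by
    intro u h1 h2 n y hy
    obtain ⟨h3, h4, h5, h6⟩ := mem_Bx hX0.le hy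
    exact hK X u n y.1 y.2 hX h1 h2 h3 h4 h5 h6
  have hsm := hSMR (faE η X) (η * X) X
    (CH * (CG * (CK * Real.log X / X) * Real.log X ^ (30 : ℕ)) ^ 2 * Z)
    (fun u D => TF P (X ^ θ) N X δ Y W x (kM u) D)
    (fun u D => TF P (X ^ θ) N X δ Y W x (fun n e A => deriv (fun v => kM v n e A) u) D)
    (by positivity) (by nlinarith) hB0 ?_ ?_ ?_ ?_
  · refine hsm.trans ?_
    have h1 := hgen (CK * Real.log X) (kM X) (by positivity)
      (fun n y hy => (hmem X (by nlinarith) le_rfl n y hy).1)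
    have h2 : (X - η * X) ^ 2 ≤ X ^ 2 := by
      refine pow_le_pow_left₀ (by nlinarith) (by nlinarith [mul_pos hη hX0]) 2
    have h3 : CH * (CG * (CK * Real.log X / X) * Real.log X ^ (30 : ℕ)) ^ 2 * Z * X ^ 2 =
        CH * (CG * (CK * Real.log X) * Real.log X ^ (30 : ℕ)) ^ 2 * Z := by
      field_simp
    have h4 : CH * (CG * (CK * Real.log X) * Real.log X ^ (30 : ℕ)) ^ 2 * Z =
        CH * (CG * CK) ^ 2 * (Real.log X ^ 62 * Z) := by ring
    have h5 : 2 * (X - η * X) ^ 2 *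
        (CH * (CG * (CK * Real.log X / X) * Real.log X ^ (30 : ℕ)) ^ 2 * Z) ≤
        2 * (CH * (CG * (CK * Real.log X) * Real.log X ^ (30 : ℕ)) ^ 2 * Z) := by
      rw [← h3]
      nlinarith [mul_le_mul_of_nonneg_left h2 hB0]
    rw [h4] at h1 h5
    linarith
  · intro D hD
    unfold faE fam at hD
    rw [Finset.mem_filter, Finset.mem_filter, Finset.mem_Icc] at hD
    exact ⟨hD.2, (Nat.cast_le.2 hD.1.1.2).trans (Nat.floor_le hX0.le)⟩
  · intro D _ u hu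
    exact TF_deriv P (X ^ θ) X δ Y W x kM
      (fun n e A => deriv (fun v => kM v n e A) u) u
      (fun n _ y hy => (hmem u hu.1 hu.2 n y hy).2.1) D
  · intro D _
    refine TF_cont P (X ^ θ) X δ Y W x (fun u n e A => deriv (fun v => kM v n e A) u) _
      (fun n _ y hy => ?_) D
    refine ((hmem X (by nlinarith) le_rfl n y hy).2.2.2).mono ?_
    intro v hv
    exact mem_Ioi.2 (lt_of_lt_of_le (by positivity) hv.1)
  · intro u hu
    exact hgen _ _ (by positivity) fun n y hy => (hmem u hu.1 hu.2 n y hy).2.2.1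

open Classical in
theorem pf_TLB (hSMR : T_SMR) (hKMD : T_KMD) (hGCB : T_GCB) (hHLB : T_HLB) (hCHV : T_CHV) :
    T_TLB := by
  intro P N θ δ η hN h2N hsq hθ hδ hσ hη
  by_cases hη1 : η ≤ 1
  swap
  · refine ⟨1, fun X hX => ?_⟩
    have h1 : faE η X = ∅ := by
      refine Finset.eq_empty_of_forall_notMem fun D hD => ?_
      unfold faE fam at hD
      rw [Finset.mem_filter, Finset.mem_filter, Finset.mem_Icc] at hD
      have h2 : (D : ℝ) ≤ X := (Nat.cast_le.2 hD.1.1.2).trans (Nat.floor_le (by linarith))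
      have h3 := hD.2
      push Not at hη1
      nlinarith
    rw [h1, Finset.sum_empty]
    exact div_nonneg (by linarith) (Real.log_nonneg hX)
  set σ : ℝ := 1 / 2 + 4 * θ + δ with hσd
  have hσ1 : σ < 1 := by linarith
  have hσ0 : 0 < σ := by linarith
  set κ : ℝ := min (1 / 8) ((1 - σ) / 4) with hκd
  have hκ0 : 0 < κ := lt_min (by norm_num) (by linarith)
  have hκ8 : κ ≤ 1 / 8 := min_le_left _ _
  have hκσ : κ ≤ (1 - σ) / 4 := min_le_right _ _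
  have hρ : σ * (1 + 2 * κ) < 1 := by nlinarith
  obtain ⟨CK, hCK, hK⟩ := hKMD η hη
  obtain ⟨CG, hCG, hG⟩ := hGCB P N κ hN hsq hκ0
  obtain ⟨CH, hCH, hH⟩ := hHLB κ hκ0 hκ8
  set T : Finset ((a : ℕ) → a ∈ N.primeFactors → ℤ) :=
    N.primeFactors.pi (fun _ => ({1, 0, -1} : Finset ℤ)) with hT
  set ext : ((a : ℕ) → a ∈ N.primeFactors → ℤ) → ℕ → ℤ := fun f p =>
    if h : p ∈ N.primeFactors then f p h else 0 with hext
  obtain ⟨X₀, hX₀⟩ := lim_E ((T.card : ℝ) * (4 * (CH * (CG * CK) ^ 2)))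
    (((N : ℝ) ^ 2) ^ (1 + 2 * κ)) (σ * (1 + 2 * κ)) hρ
  refine ⟨max X₀ 3, fun X hX => ?_⟩
  have hX3 : 3 ≤ X := (le_max_right _ _).trans hX
  have hX0 : 0 < X := by linarith
  have hL : 1 ≤ Real.log X := by
    rw [Real.le_log_iff_exp_le hX0]
    have := Real.exp_one_lt_d9
    linarith
  have hL0 : 0 < Real.log X := by linarith
  refine le_trans ?_ (hX₀ X ((le_max_left _ _).trans hX) hX3)
  set W : ℝ := Real.log X ^ (200 : ℝ) with hW
  have hW1 : 1 ≤ W := Real.one_le_rpow hL (by norm_num)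
  set Y : ℕ := ⌊(N : ℝ) ^ 2 * X ^ σ⌋₊ with hY
  have hTx : ∀ f ∈ T, ∀ p ∈ N.primeFactors, ext f p = 1 ∨ ext f p = 0 ∨ ext f p = -1 := by
    intro f hf p hp
    rw [hT, Finset.mem_pi] at hf
    have h1 := hf p hp
    simp only [Finset.mem_insert, Finset.mem_singleton] at h1
    rw [hext]
    simp only
    rw [dif_pos hp]
    exact h1
  have hone : ∀ f ∈ T, ∑ D ∈ faE η X, (TF P (X ^ θ) N X δ Y W (ext f) (kM D) D) ^ 2 ≤
      4 * (CH * (CG * CK) ^ 2) * (Real.log X ^ 62 *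
        (X * Real.log X ^ (-100 : ℝ) +
          ((N : ℝ) ^ 2) ^ (1 + 2 * κ) * X ^ (σ * (1 + 2 * κ)))) := by
    intro f hf
    refine (one_x hSMR hN h2N hθ (by linarith) hη hη1 hCK hCG hK hG hH hX3 Y hW1
      (hTx f hf)).trans ?_
    rw [mul_assoc 4]
    refine mul_le_mul_of_nonneg_left ?_ (by norm_num)
    refine mul_le_mul_of_nonneg_left ?_ (by positivity)
    refine mul_le_mul_of_nonneg_left ?_ (by positivity)
    have h1 : W ^ (-(1 / 2) : ℝ) = Real.log X ^ (-100 : ℝ) := by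
      rw [hW, ← Real.rpow_mul hL0.le]
      norm_num
    have h2 : (Y : ℝ) ^ (1 + 2 * κ) ≤
        ((N : ℝ) ^ 2) ^ (1 + 2 * κ) * X ^ (σ * (1 + 2 * κ)) := by
      rw [Real.rpow_mul hX0.le, ← Real.mul_rpow (by positivity) (by positivity)]
      exact Real.rpow_le_rpow (by positivity) (Nat.floor_le (by positivity)) (by linarith)
    rw [h1]
    linarith
  calc ∑ D ∈ faE η X, (TF P (X ^ θ) N X δ Y W (fun p => chi p D) (kM D) D) ^ 2
      ≤ ∑ D ∈ faE η X, ∑ f ∈ T, (TF P (X ^ θ) N X δ Y W (ext f) (kM D) D) ^ 2 := by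
        refine Finset.sum_le_sum fun D hD => ?_
        unfold faE fam at hD
        rw [Finset.mem_filter, Finset.mem_filter] at hD
        have hD4 : D % 4 = 3 := hD.1.2.2.1
        set f0 : (a : ℕ) → a ∈ N.primeFactors → ℤ := fun p _ => chi p D with hf0
        have h1 : f0 ∈ T := by
          rw [hT, Finset.mem_pi]
          intro p hp
          have := (hCHV D p hD4 (Nat.prime_of_mem_primeFactors hp)).1
          simp only [Finset.mem_insert, Finset.mem_singleton]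
          exact this
        have h2 : TF P (X ^ θ) N X δ Y W (fun p => chi p D) (kM D) D =
            TF P (X ^ θ) N X δ Y W (ext f0) (kM D) D := by
          refine TF_congr _ _ _ _ _ _ (fun p hp => ?_) _ _
          rw [hext]
          simp only
          rw [dif_pos hp]
        rw [h2]
        exact Finset.single_le_sum
          (f := fun f => (TF P (X ^ θ) N X δ Y W (ext f) (kM D) D) ^ 2)
          (fun f _ => sq_nonneg _) h1
    _ = ∑ f ∈ T, ∑ D ∈ faE η X, (TF P (X ^ θ) N X δ Y W (ext f) (kM D) D) ^ 2 :=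
        Finset.sum_comm
    _ ≤ ∑ _f ∈ T, 4 * (CH * (CG * CK) ^ 2) * (Real.log X ^ 62 *
        (X * Real.log X ^ (-100 : ℝ) +
          ((N : ℝ) ^ 2) ^ (1 + 2 * κ) * X ^ (σ * (1 + 2 * κ)))) := Finset.sum_le_sum hone
    _ = _ := by
        rw [Finset.sum_const, nsmul_eq_mul, mul_assoc (T.card : ℝ)]

end Pool.Agent.H19.ADM
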