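import Pool.Agent.H65.AD.TargetsA
import Pool.Agent.H77.CN.UFC

/-!
# The mollifier coefficients, split into small and large primes (row UCD of the board adm_modules)
-/

set_option autoImplicit false

open MeasureTheory Set Filter
open scoped Real

namespace Pool.Agent.H19.ADM

open Pool.Agent.H31.CN Pool.Agent.H95.AD Pool.Agent.H50.CN Pool.Agent.H65.AD

lemma cm_zero (P : Polynomial ℝ) (M : ℝ) (N m : ℕ) (hm : ¬ (Squarefree m ∧ Nat.Coprime m N)) :
    cm P M N m = 0 := by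
  unfold cm
  by_cases h : (m : ℝ) ≤ M ∧ Nat.Coprime m N
  · rw [if_pos h]
    have hns : ¬ Squarefree m := fun h' => hm ⟨h', h.2⟩
    unfold mr
    rw [ArithmeticFunction.moebius_eq_zero_of_not_squarefree hns]
    simp
  · rw [if_neg h]

lemma one_var (P : Polynomial ℝ) (M : ℝ) (N D : ℕ) (f : ℕ → ℝ) (hN : 1 ≤ N)
    (hsq : Squarefree N) :
    ∑ m ∈ SD M N, CD P M N D m * f m =
      ∑ n ∈ N.divisors, anx N (fun p => chi p D) n *
        ∑ m ∈ Finset.Icc 1 ⌊M⌋₊, cm P M N m * f (n * m) := by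
  rw [Pool.Agent.H77.CN.sum_SD M N hN hsq]
  refine Finset.sum_congr rfl fun n hn => ?_
  have hd := Nat.dvd_of_mem_divisors hn
  have hn0 : 0 < n := Nat.pos_of_dvd_of_pos hd hN
  rw [Finset.mul_sum, Finset.sum_filter]
  refine Finset.sum_congr rfl fun m hm => ?_
  by_cases h1 : Squarefree m ∧ Nat.Coprime m N
  · rw [if_pos h1]
    have hgcd : Nat.gcd (n * m) N = n := by
      rw [Nat.Coprime.gcd_mul_right_cancel n h1.2]
      exact Nat.gcd_eq_left hd
    unfold CD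
    rw [hgcd, Nat.mul_div_cancel_left m hn0]
    have : an N n (D : ℤ) = anx N (fun p => chi p D) n := rfl
    rw [this]
    ring
  · rw [if_neg h1, cm_zero P M N m h1]
    simp

theorem pf_UCD : T_UCD := by
  intro P M N D F hN hsq _
  have h1 : ∀ m₁, ∑ m₂ ∈ SD M N, CD P M N D m₁ * CD P M N D m₂ * F m₁ m₂ =
      CD P M N D m₁ * ∑ m₂ ∈ SD M N, CD P M N D m₂ * F m₁ m₂ := by
    intro m₁
    rw [Finset.mul_sum]
    exact Finset.sum_congr rfl fun m₂ _ => by ring
  rw [Finset.sum_congr rfl fun m₁ _ => h1 m₁, one_var P M N D _ hN hsq]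
  refine Finset.sum_congr rfl fun n₁ _ => ?_
  have h2 : ∀ m₁, cm P M N m₁ * ∑ m₂ ∈ SD M N, CD P M N D m₂ * F (n₁ * m₁) m₂ =
      ∑ n₂ ∈ N.divisors, anx N (fun p => chi p D) n₂ *
        ∑ m₂ ∈ Finset.Icc 1 ⌊M⌋₊, cm P M N m₁ * cm P M N m₂ * F (n₁ * m₁) (n₂ * m₂) := by
    intro m₁
    rw [one_var P M N D _ hN hsq, Finset.mul_sum]
    refine Finset.sum_congr rfl fun n₂ _ => ?_
    rw [Finset.mul_sum, Finset.mul_sum, Finset.mul_sum]
    exact Finset.sum_congr rfl fun m₂ _ => by ring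
  rw [Finset.sum_congr rfl fun m₁ _ => h2 m₁, Finset.sum_comm, Finset.mul_sum]
  refine Finset.sum_congr rfl fun n₂ _ => ?_
  rw [← Finset.mul_sum]
  ring

end Pool.Agent.H19.ADM
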